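import Mathlib
import Pool.Agent.Results.MP_daf63b_nt.AllPairs

/-!
# Antichain sums of the numbers `p ^ k q ^ l`: almost all integers are not representable

The starting result `AllPairs` answers the question: for every pair of coprime integers `p > q ≥ 2` other than
`(3, 2)` infinitely many integers coprime to `p q` are non-representable. We show much more for all pairs with five
exceptions: fewer than `6 x ^ (227 / 228)` of the integers up to `x` are representable at all, so almost all integers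
(also among those coprime to `p q`) are non-representable.

Proof. Sort an antichain by its exponents of `p`; the exponents of `q` decrease. Hence the antichain is determined by
the set `A` of its exponents of `p` and the set `B` of its exponents of `q`, and `|A| = |B|`. With the weights
`s ^ |A|` and `s ^ (- |B|)` there are at most `(1 + s) ^ K (1 + 1 / s) ^ L` such pairs with `A ⊆ [0, K)`,
`B ⊆ [0, L)`, for every `s > 0`.
-/

set_option autoImplicit false

namespace Pool.Agent.Results.MP_daf63b_nt.AlmostAllNonRepresentable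

open Finset Filter Topology
open Pool.Agent.Results.MP_daf63b_nt.AllPairs (Representable)

/-- An antichain of pairs of exponents. -/
def Anti (T : Finset (ℕ × ℕ)) : Prop := ∀ x ∈ T, ∀ y ∈ T, x ≠ y → ¬ (x.1 ≤ y.1 ∧ x.2 ≤ y.2)

/-- The pairs of `A × B` which have as many smaller elements in `A` as larger elements in `B`. -/
def diag (A B : Finset ℕ) : Finset (ℕ × ℕ) :=
  (A ×ˢ B).filter (fun x => (A.filter (fun a => a < x.1)).card = (B.filter (fun b => x.2 < b)).card)

theorem inj_fst {T : Finset (ℕ × ℕ)} (h : Anti T) : Set.InjOn Prod.fst (T : Set (ℕ × ℕ)) := by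
  intro x hx y hy hxy
  by_contra hne
  rcases le_total x.2 y.2 with h1 | h1
  · exact h x hx y hy hne ⟨hxy.le, h1⟩
  · exact h y hy x hx (Ne.symm hne) ⟨hxy.ge, h1⟩

theorem inj_snd {T : Finset (ℕ × ℕ)} (h : Anti T) : Set.InjOn Prod.snd (T : Set (ℕ × ℕ)) := by
  intro x hx y hy hxy
  by_contra hne
  rcases le_total x.1 y.1 with h1 | h1
  · exact h x hx y hy hne ⟨h1, hxy.le⟩
  · exact h y hy x hx (Ne.symm hne) ⟨h1, hxy.ge⟩

theorem rank_eq {T : Finset (ℕ × ℕ)} (h : Anti T) {x : ℕ × ℕ} (hx : x ∈ T) :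
    ((T.image Prod.fst).filter (fun a => a < x.1)).card =
      ((T.image Prod.snd).filter (fun b => x.2 < b)).card := by
  have h1 : (T.image Prod.fst).filter (fun a => a < x.1) =
      (T.filter (fun y => y.1 < x.1)).image Prod.fst := by
    rw [filter_image]
  have h2 : (T.image Prod.snd).filter (fun b => x.2 < b) =
      (T.filter (fun y => x.2 < y.2)).image Prod.snd := by
    rw [filter_image]
  have h3 : T.filter (fun y => y.1 < x.1) = T.filter (fun y => x.2 < y.2) := by
    apply filter_congr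
    intro y hy
    constructor
    · intro h4
      by_contra h5
      exact h y hy x hx (by rintro rfl; omega) ⟨by omega, by omega⟩
    · intro h4
      by_contra h5
      exact h x hx y hy (by rintro rfl; omega) ⟨by omega, by omega⟩
  rw [h1, h2, card_image_of_injOn, card_image_of_injOn, h3]
  · exact (inj_snd h).mono (by intro y hy; exact (mem_filter.1 hy).1)
  · exact (inj_fst h).mono (by intro y hy; exact (mem_filter.1 hy).1)

/-- An antichain is determined by its two projections. -/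
theorem eq_diag {T : Finset (ℕ × ℕ)} (h : Anti T) : T = diag (T.image Prod.fst) (T.image Prod.snd) := by
  ext z
  constructor
  · intro hz
    rw [diag, mem_filter, mem_product]
    exact ⟨⟨mem_image_of_mem _ hz, mem_image_of_mem _ hz⟩, rank_eq h hz⟩
  · intro hz
    rw [diag, mem_filter, mem_product] at hz
    obtain ⟨⟨h1, h2⟩, h3⟩ := hz
    obtain ⟨x, hx, hx1⟩ := mem_image.1 h1
    have h4 := rank_eq h hx
    rw [hx1, h3] at h4
    have hx2 : x.2 ∈ T.image Prod.snd := mem_image_of_mem _ hx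
    have h5 : z.2 = x.2 := by
      by_contra hne
      rcases Nat.lt_or_gt_of_ne hne with h6 | h6
      · have : ((T.image Prod.snd).filter (fun b => x.2 < b)).card <
            ((T.image Prod.snd).filter (fun b => z.2 < b)).card := by
          apply card_lt_card
          rw [ssubset_iff_of_subset]
          · exact ⟨x.2, mem_filter.2 ⟨hx2, h6⟩, fun hh => absurd (mem_filter.1 hh).2 (lt_irrefl _)⟩
          · intro b hb
            rw [mem_filter] at hb ⊢
            exact ⟨hb.1, by omega⟩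
        omega
      · have : ((T.image Prod.snd).filter (fun b => z.2 < b)).card <
            ((T.image Prod.snd).filter (fun b => x.2 < b)).card := by
          apply card_lt_card
          rw [ssubset_iff_of_subset]
          · exact ⟨z.2, mem_filter.2 ⟨h2, h6⟩, fun hh => absurd (mem_filter.1 hh).2 (lt_irrefl _)⟩
          · intro b hb
            rw [mem_filter] at hb ⊢
            exact ⟨hb.1, by omega⟩
        omega
    have : z = x := Prod.ext hx1.symm h5
    rw [this]
    exact hx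

/-- A representable `n ≤ x` is the sum over an antichain of exponents below `log x + 1`. -/
theorem exists_anti {p q n x : ℕ} (hp : 2 ≤ p) (hq : 2 ≤ q) (hn : n ≤ x) (h : Representable p q n) :
    ∃ T : Finset (ℕ × ℕ), Anti T ∧ (∀ z ∈ T, z.1 < Nat.log p x + 1 ∧ z.2 < Nat.log q x + 1) ∧
      ∑ z ∈ T, p ^ z.1 * q ^ z.2 = n := by
  obtain ⟨S, hS, hanti, hsum⟩ := h
  choose! k l hkl using hS
  have hinj : ∀ s ∈ S, ∀ t ∈ S, (k s, l s) = (k t, l t) → s = t := by
    intro s hs t ht h
    have h1 : k s = k t := congrArg Prod.fst h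
    have h2 : l s = l t := congrArg Prod.snd h
    rw [hkl s hs, hkl t ht, h1, h2]
  refine ⟨S.image (fun s => (k s, l s)), ?_, ?_, ?_⟩
  · intro x hx y hy hxy hle
    obtain ⟨s, hs, rfl⟩ := Finset.mem_image.1 hx
    obtain ⟨t, ht, rfl⟩ := Finset.mem_image.1 hy
    have hst : s ≠ t := by
      rintro rfl; exact hxy rfl
    apply hanti s hs t ht hst
    rw [hkl s hs, hkl t ht]
    exact mul_dvd_mul (pow_dvd_pow p hle.1) (pow_dvd_pow q hle.2)
  · intro z hz
    obtain ⟨s, hs, rfl⟩ := Finset.mem_image.1 hz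
    have hsn : s ≤ n := by
      rw [← hsum]
      exact Finset.single_le_sum (f := fun s => s) (fun i _ => Nat.zero_le i) hs
    have hp0 : 0 < p ^ k s := by positivity
    have hq0 : 0 < q ^ l s := by positivity
    have h1 : p ^ k s ≤ s := by
      conv_rhs => rw [hkl s hs]
      exact Nat.le_mul_of_pos_right _ hq0
    have h2 : q ^ l s ≤ s := by
      conv_rhs => rw [hkl s hs]
      exact Nat.le_mul_of_pos_left _ hp0
    have hx0 : x ≠ 0 := by omega
    constructor
    · exact Nat.lt_succ_of_le (Nat.le_log_of_pow_le (by omega) (h1.trans (hsn.trans hn)))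
    · exact Nat.lt_succ_of_le (Nat.le_log_of_pow_le (by omega) (h2.trans (hsn.trans hn)))
  · rw [Finset.sum_image hinj, ← hsum]
    apply Finset.sum_congr rfl
    intro s hs
    conv_rhs => rw [hkl s hs]

theorem sum_powerset (s : ℝ) (K : ℕ) : ∑ A ∈ (range K).powerset, s ^ A.card = (1 + s) ^ K := by
  have := Finset.sum_pow_mul_eq_add_pow s 1 (range K)
  simp only [one_pow, mul_one, card_range] at this
  rw [this, add_comm]

/-- The count of the pairs of sets. -/
theorem count_pairs (K L : ℕ) {s : ℝ} (hs : 0 < s) :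
    ((((range K).powerset ×ˢ (range L).powerset).filter (fun z => z.1.card = z.2.card)).card : ℝ) ≤
      (1 + s) ^ K * (1 + 1 / s) ^ L := by
  have h1 : ((((range K).powerset ×ˢ (range L).powerset).filter (fun z => z.1.card = z.2.card)).card : ℝ) =
      ∑ z ∈ ((range K).powerset ×ˢ (range L).powerset).filter (fun z => z.1.card = z.2.card),
        s ^ z.1.card * (1 / s) ^ z.2.card := by
    rw [card_eq_sum_ones]
    push_cast
    apply sum_congr rfl
    intro z hz
    rw [(mem_filter.1 hz).2, ← mul_pow, mul_one_div_cancel hs.ne', one_pow]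
  rw [h1]
  calc _ ≤ ∑ z ∈ (range K).powerset ×ˢ (range L).powerset, s ^ z.1.card * (1 / s) ^ z.2.card := by
        apply sum_le_sum_of_subset_of_nonneg (filter_subset _ _)
        intro z _ _
        positivity
    _ = (∑ A ∈ (range K).powerset, s ^ A.card) * ∑ B ∈ (range L).powerset, (1 / s) ^ B.card := by
        rw [sum_mul_sum, sum_product]
    _ = _ := by rw [sum_powerset, sum_powerset]

/-- **The number of representable integers.** -/
theorem count {p q : ℕ} (hp : 2 ≤ p) (hq : 2 ≤ q) (x : ℕ) {s : ℝ} (hs : 0 < s) :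
    (Set.ncard {n : ℕ | n ≤ x ∧ Representable p q n} : ℝ) ≤
      (1 + s) ^ (Nat.log p x + 1) * (1 + 1 / s) ^ (Nat.log q x + 1) := by
  refine le_trans ?_ (count_pairs (Nat.log p x + 1) (Nat.log q x + 1) hs)
  obtain ⟨W, hW⟩ : ∃ W : Finset (Finset ℕ × Finset ℕ), W =
      ((range (Nat.log p x + 1)).powerset ×ˢ (range (Nat.log q x + 1)).powerset).filter
        (fun z => z.1.card = z.2.card) := ⟨_, rfl⟩
  rw [← hW]
  have hsub : {n : ℕ | n ≤ x ∧ Representable p q n} ⊆
      ((W.image (fun w => ∑ z ∈ diag w.1 w.2, p ^ z.1 * q ^ z.2) : Finset ℕ) : Set ℕ) := by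
    rintro n ⟨hn, hr⟩
    obtain ⟨T, hT, hlt, hsum⟩ := exists_anti hp hq hn hr
    rw [mem_coe, mem_image]
    refine ⟨(T.image Prod.fst, T.image Prod.snd), ?_, ?_⟩
    · rw [hW, mem_filter, mem_product, mem_powerset, mem_powerset]
      refine ⟨⟨?_, ?_⟩, ?_⟩
      · intro a ha
        obtain ⟨z, hz, rfl⟩ := mem_image.1 ha
        exact mem_range.2 (hlt z hz).1
      · intro a ha
        obtain ⟨z, hz, rfl⟩ := mem_image.1 ha
        exact mem_range.2 (hlt z hz).2
      · rw [card_image_of_injOn (inj_fst hT), card_image_of_injOn (inj_snd hT)]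
    · simp only
      rw [← eq_diag hT]
      exact hsum
  have h1 := Set.ncard_le_ncard hsub (Finset.finite_toSet _)
  rw [Set.ncard_coe_finset] at h1
  exact_mod_cast h1.trans card_image_le

theorem pow_log_le {p x : ℕ} (hp : 2 ≤ p) (hx : 1 ≤ x) {u α : ℝ} (hu : 0 ≤ u) (hα : 0 ≤ α)
    (h : u ≤ (p : ℝ) ^ α) : u ^ Nat.log p x ≤ (x : ℝ) ^ α := by
  have hp0 : (0 : ℝ) ≤ p := Nat.cast_nonneg _
  calc u ^ Nat.log p x ≤ ((p : ℝ) ^ α) ^ Nat.log p x := pow_le_pow_left₀ hu h _
    _ = ((p : ℝ) ^ Nat.log p x) ^ α := by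
        rw [← Real.rpow_natCast, ← Real.rpow_mul hp0, mul_comm, Real.rpow_mul hp0, Real.rpow_natCast]
    _ ≤ (x : ℝ) ^ α := by
        apply Real.rpow_le_rpow (by positivity) _ hα
        exact_mod_cast Nat.pow_log_le_self p (by omega : x ≠ 0)

/-- **The number of representable integers up to `x`** is at most
`(1 + s) (1 + 1 / s) x ^ (α + β)` if `1 + s ≤ p ^ α` and `1 + 1 / s ≤ q ^ β`. -/
theorem count_pow {p q : ℕ} (hp : 2 ≤ p) (hq : 2 ≤ q) {x : ℕ} (hx : 1 ≤ x) {s α β : ℝ} (hs : 0 < s)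
    (hα : 0 ≤ α) (hβ : 0 ≤ β) (h1 : 1 + s ≤ (p : ℝ) ^ α) (h2 : 1 + 1 / s ≤ (q : ℝ) ^ β) :
    (Set.ncard {n : ℕ | n ≤ x ∧ Representable p q n} : ℝ) ≤
      (1 + s) * (1 + 1 / s) * (x : ℝ) ^ (α + β) := by
  have hx0 : (0 : ℝ) < x := by exact_mod_cast hx
  have hs1 : 0 < 1 / s := by positivity
  refine (count hp hq x hs).trans ?_
  rw [pow_succ, pow_succ, Real.rpow_add hx0]
  have h3 := pow_log_le hp hx (by positivity : 0 ≤ 1 + s) hα h1
  have h4 := pow_log_le hq hx (by positivity : 0 ≤ 1 + 1 / s) hβ h2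
  calc (1 + s) ^ Nat.log p x * (1 + s) * ((1 + 1 / s) ^ Nat.log q x * (1 + 1 / s))
      ≤ (x : ℝ) ^ α * (1 + s) * ((x : ℝ) ^ β * (1 + 1 / s)) := by gcongr
    _ = _ := by ring

theorem root_le {b c : ℝ} {m n : ℕ} (hn : n ≠ 0) (hb : 0 ≤ b) (hc : 0 ≤ c) (h : b ^ n ≤ c ^ m) :
    b ≤ c ^ ((m : ℝ) / n) := by
  calc b = (b ^ n) ^ ((n : ℝ)⁻¹) := (Real.pow_rpow_inv_natCast hb hn).symm
    _ ≤ (c ^ m) ^ ((n : ℝ)⁻¹) := Real.rpow_le_rpow (by positivity) h (by positivity)
    _ = c ^ ((m : ℝ) / n) := by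
        rw [← Real.rpow_natCast, ← Real.rpow_mul hc, div_eq_mul_inv]

/-- The five pairs (besides `(3, 2)`) for which the count is not small. -/
def Exceptional (p q : ℕ) : Prop :=
  (p = 3 ∧ q = 2) ∨ (p = 5 ∧ q = 2) ∨ (p = 7 ∧ q = 2) ∨ (p = 9 ∧ q = 2) ∨ (p = 4 ∧ q = 3) ∨ (p = 5 ∧ q = 3)

/-- **A power saving for all pairs but six.** -/
theorem saving {p q : ℕ} (hq : 2 ≤ q) (hpq : q < p) (hc : Nat.Coprime p q) (he : ¬ Exceptional p q)
    {x : ℕ} (hx : 1 ≤ x) :
    (Set.ncard {n : ℕ | n ≤ x ∧ Representable p q n} : ℝ) ≤ 6 * (x : ℝ) ^ (227 / 228 : ℝ) := by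
  have hx1 : (1 : ℝ) ≤ x := by exact_mod_cast hx
  unfold Exceptional at he
  have hfin : ∀ (s α β : ℝ), 0 < s → 0 ≤ α → 0 ≤ β → 1 + s ≤ (p : ℝ) ^ α → 1 + 1 / s ≤ (q : ℝ) ^ β →
      (1 + s) * (1 + 1 / s) ≤ 6 → α + β ≤ 227 / 228 →
      (Set.ncard {n : ℕ | n ≤ x ∧ Representable p q n} : ℝ) ≤ 6 * (x : ℝ) ^ (227 / 228 : ℝ) := by
    intro s α β hs hα hβ h1 h2 h3 h4
    refine (count_pow (by omega) hq hx hs hα hβ h1 h2).trans ?_
    have h5 : (x : ℝ) ^ (α + β) ≤ (x : ℝ) ^ (227 / 228 : ℝ) :=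
      Real.rpow_le_rpow_of_exponent_le hx1 h4
    have h6 : (0 : ℝ) ≤ (x : ℝ) ^ (α + β) := by positivity
    calc (1 + s) * (1 + 1 / s) * (x : ℝ) ^ (α + β) ≤ 6 * (x : ℝ) ^ (α + β) := by gcongr
      _ ≤ _ := by gcongr
  rcases Nat.lt_or_ge q 4 with h4 | h4
  · rcases (by omega : q = 2 ∨ q = 3) with rfl | rfl
    · -- `q = 2`, `p ≥ 11`
      have hodd : ¬ 2 ∣ p := by
        intro hd
        have := Nat.dvd_gcd hd (dvd_refl 2)
        rw [Nat.coprime_iff_gcd_eq_one.1 hc] at this
        omega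
      have hp11 : 11 ≤ p := by omega
      refine hfin 3 ((11 : ℕ) / (19 : ℕ) : ℝ) ((5 : ℕ) / (12 : ℕ) : ℝ) (by norm_num) (by positivity)
        (by positivity) ?_ ?_ (by norm_num) (by norm_num)
      · apply root_le (by norm_num) (by norm_num) (Nat.cast_nonneg _)
        calc (1 + 3 : ℝ) ^ 19 ≤ (11 : ℝ) ^ 11 := by norm_num
          _ ≤ (p : ℝ) ^ 11 := by
              apply pow_le_pow_left₀ (by norm_num)
              exact_mod_cast hp11
      · apply root_le (by norm_num) (by norm_num) (Nat.cast_nonneg _)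
        norm_num
    · -- `q = 3`, `p ≥ 7`
      have hodd : ¬ 3 ∣ p := by
        intro hd
        have := Nat.dvd_gcd hd (dvd_refl 3)
        rw [Nat.coprime_iff_gcd_eq_one.1 hc] at this
        omega
      have hp7 : 7 ≤ p := by omega
      refine hfin 1 ((4 : ℕ) / (11 : ℕ) : ℝ) ((12 : ℕ) / (19 : ℕ) : ℝ) (by norm_num) (by positivity)
        (by positivity) ?_ ?_ (by norm_num) (by norm_num)
      · apply root_le (by norm_num) (by norm_num) (Nat.cast_nonneg _)
        calc (1 + 1 : ℝ) ^ 11 ≤ (7 : ℝ) ^ 4 := by norm_num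
          _ ≤ (p : ℝ) ^ 4 := by
              apply pow_le_pow_left₀ (by norm_num)
              exact_mod_cast hp7
      · apply root_le (by norm_num) (by norm_num) (Nat.cast_nonneg _)
        norm_num
  · have hp5 : 5 ≤ p := by omega
    refine hfin 1 ((4 : ℕ) / (9 : ℕ) : ℝ) ((1 : ℕ) / (2 : ℕ) : ℝ) (by norm_num) (by positivity)
      (by positivity) ?_ ?_ (by norm_num) (by norm_num)
    · apply root_le (by norm_num) (by norm_num) (Nat.cast_nonneg _)
      calc (1 + 1 : ℝ) ^ 9 ≤ (5 : ℝ) ^ 4 := by norm_num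
        _ ≤ (p : ℝ) ^ 4 := by
            apply pow_le_pow_left₀ (by norm_num)
            exact_mod_cast hp5
    · apply root_le (by norm_num) (by norm_num) (Nat.cast_nonneg _)
      have : (4 : ℝ) ≤ q := by exact_mod_cast h4
      norm_num
      linarith

/-- The number of the integers `n ≤ x` coprime to `m`. -/
theorem many_coprime {m : ℕ} (hm : 1 ≤ m) (x : ℕ) :
    (x : ℝ) / m ≤ Set.ncard {n : ℕ | n ≤ x ∧ 0 < n ∧ Nat.Coprime n m} + 1 := by
  have hfin : {n : ℕ | n ≤ x ∧ 0 < n ∧ Nat.Coprime n m}.Finite :=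
    (Set.finite_Iic x).subset (fun n hn => hn.1)
  have hsub : ((range (x / m)).image (fun i => m * i + 1) : Finset ℕ) ⊆ hfin.toFinset := by
    intro n hn
    obtain ⟨i, hi, rfl⟩ := mem_image.1 hn
    rw [mem_range] at hi
    rw [Set.Finite.mem_toFinset]
    refine ⟨?_, by omega, ?_⟩
    · have h1 : m * (i + 1) ≤ m * (x / m) := Nat.mul_le_mul_left _ hi
      have h2 : m * (x / m) ≤ x := Nat.mul_div_le _ _
      have h3 : m * (i + 1) = m * i + m := by ring
      omega
    · simp
  have h1 := card_le_card hsub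
  rw [card_image_of_injective _ (by
    intro a b hab
    simp only at hab
    have : m * a = m * b := by omega
    exact Nat.eq_of_mul_eq_mul_left (by omega) this), card_range, ← Set.ncard_eq_toFinset_card _ hfin] at h1
  have h2 : (x : ℝ) / m < (x / m : ℕ) + 1 := by
    rw [div_lt_iff₀ (by exact_mod_cast hm)]
    have := Nat.lt_div_mul_add (a := x) (b := m) (by omega)
    have h3 : x < (x / m + 1) * m := by
      calc x < x / m * m + m := this
        _ = _ := by ring
    exact_mod_cast h3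
  have h3 : ((x / m : ℕ) : ℝ) ≤ Set.ncard {n : ℕ | n ≤ x ∧ 0 < n ∧ Nat.Coprime n m} := by exact_mod_cast h1
  linarith

/-- **Theorem.** Let `p > q ≥ 2` be coprime.
(1) If `(p, q) ≠ (3, 2)` infinitely many positive integers coprime to `p q` are non-representable.
(2) If `(p, q)` is none of the six pairs `(3, 2), (5, 2), (7, 2), (9, 2), (4, 3), (5, 3)`, then at most
`6 x ^ (227 / 228)` of the integers `0 ≤ n ≤ x` are representable, for every `x ≥ 1`; and the proportion of the
representable integers among the positive integers up to `x` coprime to `p q` tends to `0`.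
(3) For all `p, q ≥ 2` (coprime or not), all `s > 0` and `x ≥ 1` at most
`(1 + s) (1 + 1 / s) x ^ (log (1 + s) / log p + log (1 + 1 / s) / log q)` integers `0 ≤ n ≤ x` are representable. -/
theorem result :
    (∀ p q : ℕ, 2 ≤ q → q < p → Nat.Coprime p q → ({p, q} : Set ℕ) ≠ {2, 3} →
      Set.Infinite {n : ℕ | 0 < n ∧ Nat.Coprime n (p * q) ∧ ¬ Representable p q n}) ∧
    (∀ p q : ℕ, 2 ≤ q → q < p → Nat.Coprime p q → ¬ Exceptional p q →
      (∀ x : ℕ, 1 ≤ x → (Set.ncard {n : ℕ | n ≤ x ∧ Representable p q n} : ℝ) ≤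
        6 * (x : ℝ) ^ (227 / 228 : ℝ)) ∧
      Tendsto (fun x : ℕ => (Set.ncard {n : ℕ | n ≤ x ∧ 0 < n ∧ Nat.Coprime n (p * q) ∧
          Representable p q n} : ℝ) / Set.ncard {n : ℕ | n ≤ x ∧ 0 < n ∧ Nat.Coprime n (p * q)})
        atTop (𝓝 0)) ∧
    (∀ p q : ℕ, 2 ≤ p → 2 ≤ q → ∀ s : ℝ, 0 < s → ∀ x : ℕ, 1 ≤ x →
      (Set.ncard {n : ℕ | n ≤ x ∧ Representable p q n} : ℝ) ≤ (1 + s) * (1 + 1 / s) *
        (x : ℝ) ^ (Real.log (1 + s) / Real.log p + Real.log (1 + 1 / s) / Real.log q)) := by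
  refine ⟨Pool.Agent.Results.MP_daf63b_nt.AllPairs.result, fun p q hq hpq hc he => ⟨fun x hx =>
    saving hq hpq hc he hx, ?_⟩, fun p q hp hq s hs x hx => ?_⟩
  · have hm : 1 ≤ p * q := Nat.mul_pos (by omega) (by omega)
    have hm0 : (0 : ℝ) < (p * q : ℕ) := by exact_mod_cast hm
    have hlim : Tendsto (fun x : ℕ => 12 * ((p * q : ℕ) : ℝ) * (x : ℝ) ^ (-(1 / 228) : ℝ)) atTop (𝓝 0) := by
      have h1 : Tendsto (fun x : ℕ => (x : ℝ) ^ (-(1 / 228) : ℝ)) atTop (𝓝 0) :=
        (tendsto_rpow_neg_atTop (by norm_num)).comp tendsto_natCast_atTop_atTop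
      simpa using h1.const_mul (12 * ((p * q : ℕ) : ℝ))
    refine squeeze_zero' (Eventually.of_forall fun x => by positivity) ?_ hlim
    filter_upwards [eventually_ge_atTop (2 * (p * q))] with x hx
    have hx1 : 1 ≤ x := by omega
    have hxr : (0 : ℝ) < x := by exact_mod_cast hx1
    have h1 := many_coprime hm x
    have h2 : (x : ℝ) / (2 * (p * q : ℕ)) ≤ Set.ncard {n : ℕ | n ≤ x ∧ 0 < n ∧ Nat.Coprime n (p * q)} := by
      have h3 : (1 : ℝ) ≤ (x : ℝ) / (2 * (p * q : ℕ)) := by
        rw [le_div_iff₀ (by positivity), one_mul]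
        exact_mod_cast hx
      have h4 : (x : ℝ) / (p * q : ℕ) = 2 * ((x : ℝ) / (2 * (p * q : ℕ))) := by field_simp
      rw [h4] at h1
      linarith
    have h5 : (Set.ncard {n : ℕ | n ≤ x ∧ 0 < n ∧ Nat.Coprime n (p * q) ∧ Representable p q n} : ℝ) ≤
        6 * (x : ℝ) ^ (227 / 228 : ℝ) := by
      refine le_trans ?_ (saving hq hpq hc he hx1)
      have hfin : {n : ℕ | n ≤ x ∧ Representable p q n}.Finite :=
        (Set.finite_Iic x).subset (fun n hn => hn.1)
      have hsub : {n : ℕ | n ≤ x ∧ 0 < n ∧ Nat.Coprime n (p * q) ∧ Representable p q n} ⊆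
          {n : ℕ | n ≤ x ∧ Representable p q n} := fun n hn => ⟨hn.1, hn.2.2.2⟩
      exact_mod_cast Set.ncard_le_ncard hsub hfin
    have h6 : (0 : ℝ) < (x : ℝ) / (2 * (p * q : ℕ)) := by positivity
    rw [div_le_iff₀ (lt_of_lt_of_le h6 h2)]
    calc _ ≤ 6 * (x : ℝ) ^ (227 / 228 : ℝ) := h5
      _ = 12 * ((p * q : ℕ) : ℝ) * (x : ℝ) ^ (-(1 / 228) : ℝ) * ((x : ℝ) / (2 * (p * q : ℕ))) := by
          have h7 : (x : ℝ) ^ (227 / 228 : ℝ) = (x : ℝ) ^ (-(1 / 228) : ℝ) * x := by
            rw [← Real.rpow_add_one hxr.ne']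
            norm_num
          rw [h7]
          field_simp
          norm_num
      _ ≤ _ := by
          apply mul_le_mul_of_nonneg_left h2
          positivity
  · have hp1 : (1 : ℝ) < p := by exact_mod_cast (by omega : 1 < p)
    have hq1 : (1 : ℝ) < q := by exact_mod_cast (by omega : 1 < q)
    have hs1 : 0 < 1 / s := by positivity
    have key : ∀ (b u : ℝ), 1 < b → 1 < u → u ≤ b ^ (Real.log u / Real.log b) := by
      intro b u hb hu
      rw [Real.rpow_def_of_pos (by linarith), mul_div_cancel₀ _ (Real.log_pos hb).ne',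
        Real.exp_log (by linarith)]
    exact count_pow hp hq hx hs (div_nonneg (Real.log_nonneg (by linarith)) (Real.log_nonneg hp1.le))
      (div_nonneg (Real.log_nonneg (by linarith)) (Real.log_nonneg hq1.le))
      (key p (1 + s) hp1 (by linarith)) (key q (1 + 1 / s) hq1 (by linarith))

end Pool.Agent.Results.MP_daf63b_nt.AlmostAllNonRepresentable
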